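import Pool.Agent.Helper89.A8.Stmts

/-! Block A8-M01: simplicity of the three modules, elements of order 15, homomorphisms,
perfectness of the standard pairings (helper16). -/

set_option autoImplicit false

namespace Pool.Agent.A8

open Matrix

/-! ### transvections -/

def m01I : Fin 12 → Fin 4 := ![0, 0, 0, 1, 1, 1, 2, 2, 2, 3, 3, 3]
def m01J : Fin 12 → Fin 4 := ![1, 2, 3, 0, 2, 3, 0, 1, 3, 0, 1, 2]

/-- the transvection `1 + E_{I s, J s}` -/
def m01T (s : Fin 12) : M4 := fun r c => if r = c ∨ (r = m01I s ∧ c = m01J s) then 1 else 0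

theorem m01T_sq : ∀ s, m01T s * m01T s = 1 := by decide +kernel

/-- the transvection as a group element -/
def m01G (s : Fin 12) : Gam := ⟨m01T s, m01T s, m01T_sq s, m01T_sq s⟩

/-- `x + t x` on the three modules -/
def m01SV (s : Fin 12) (x : V4) : V4 := x + m01T s *ᵥ x
/-- the same for functionals -/
def m01SD (s : Fin 12) (x : V4) : V4 := x + (m01T s)ᵀ *ᵥ x
/-- the same for bivectors -/
def m01S (s : Fin 12) (x : V6) : V6 := x + actL (m01T s) x

theorem m01_V (s : Fin 12) (x : MV) : x + act (m01G s) x = (m01SV s x : V4) := by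
  rw [act_MV]; rfl

theorem m01_D (s : Fin 12) (x : MD) : x + act (m01G s) x = (m01SD s x : V4) := by
  rw [act_MD]; rfl

theorem m01_L (s : Fin 12) (x : ML) : x + act (m01G s) x = (m01S s x : V6) := by
  rw [act_ML]; rfl

theorem m01_simple_of {M : Type} [AddCommGroup M] [Module RG M] [Nontrivial M] (u : M)
    (h1 : ∀ N : Submodule RG M, ∀ x ∈ N, x ≠ 0 → u ∈ N)
    (h2 : ∀ N : Submodule RG M, u ∈ N → ∀ y, y ∈ N) : IsSimpleModule RG M := by
  rw [isSimpleModule_iff]
  refine { eq_bot_or_eq_top := fun N => ?_ }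
  by_cases hN : N = ⊥
  · exact Or.inl hN
  · obtain ⟨x, hx, hx0⟩ := Submodule.exists_mem_ne_zero_of_ne_bot hN
    exact Or.inr (eq_top_iff.2 fun y _ => h2 N (h1 N x hx hx0) y)

theorem m01_mem {M : Type} [AddCommGroup M] [Module RG M] (N : Submodule RG M) (s : Fin 12) {x : M}
    (hx : x ∈ N) : x + act (m01G s) x ∈ N := N.add_mem hx (act_mem _ hx)

def m01b4 (i : Fin 4) : V4 := fun j => if j = i then 1 else 0
def m01b6 (i : Fin 6) : V6 := fun j => if j = i then 1 else 0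

theorem m01_span4 : ∀ y : V4, y = ∑ i, if y i = 1 then m01b4 i else 0 := by decide +kernel
theorem m01_span6 : ∀ y : V6, y = ∑ i, if y i = 1 then m01b6 i else 0 := by decide +kernel

theorem m01_v1 : ∀ x : V4, x ≠ 0 → x = m01b4 0 ∨ ∃ s ∈ [(0 : Fin 12), 1, 2],
    m01SV s x = m01b4 0 := by decide +kernel
theorem m01_v2 : ∀ i : Fin 4, i = 0 ∨ ∃ s ∈ [(3 : Fin 12), 6, 9],
    m01SV s (m01b4 0) = m01b4 i := by decide +kernel
theorem m01_d1 : ∀ x : V4, x ≠ 0 → x = m01b4 0 ∨ ∃ s ∈ [(3 : Fin 12), 6, 9],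
    m01SD s x = m01b4 0 := by decide +kernel
theorem m01_d2 : ∀ i : Fin 4, i = 0 ∨ ∃ s ∈ [(0 : Fin 12), 1, 2],
    m01SD s (m01b4 0) = m01b4 i := by decide +kernel

theorem m01_simpleV : IsSimpleModule RG MV := by
  have : Nontrivial MV := ⟨m01b4 0, (0 : V4), by decide⟩
  refine m01_simple_of (m01b4 0 : V4) ?_ ?_
  · intro N x hx hx0
    rcases m01_v1 x hx0 with h | ⟨s, -, h⟩
    · exact h ▸ hx
    · have := m01_mem N s hx
      rw [m01_V, h] at this
      exact this
  · intro N hu y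
    have hb : ∀ i, (m01b4 i : MV) ∈ N := by
      intro i
      rcases m01_v2 i with h | ⟨s, -, h⟩
      · exact h ▸ hu
      · have := m01_mem N s hu
        rw [m01_V, h] at this
        exact this
    rw [m01_span4 y]
    refine N.sum_mem fun i _ => ?_
    split_ifs
    · exact hb i
    · exact N.zero_mem

theorem m01_simpleD : IsSimpleModule RG MD := by
  have : Nontrivial MD := ⟨m01b4 0, (0 : V4), by decide⟩
  refine m01_simple_of (m01b4 0 : V4) ?_ ?_
  · intro N x hx hx0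
    rcases m01_d1 x hx0 with h | ⟨s, -, h⟩
    · exact h ▸ hx
    · have := m01_mem N s hx
      rw [m01_D, h] at this
      exact this
  · intro N hu y
    have hb : ∀ i, (m01b4 i : MD) ∈ N := by
      intro i
      rcases m01_d2 i with h | ⟨s, -, h⟩
      · exact h ▸ hu
      · have := m01_mem N s hu
        rw [m01_D, h] at this
        exact this
    rw [m01_span4 y]
    refine N.sum_mem fun i _ => ?_
    split_ifs
    · exact hb i
    · exact N.zero_mem

theorem m01_l1 : ∀ x : V6, x ≠ 0 → x = m01b6 0 ∨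
    ∃ s ∈ [((4 : Fin 12), (0 : Fin 12)), (5, 0), (1, 3), (2, 3), (2, 4)],
      m01S s.1 (m01S s.2 x) = m01b6 0 := by decide +kernel

theorem m01_l2 : ∀ i : Fin 6, i = 0 ∨ (∃ s ∈ [(7 : Fin 12), 10, 6, 9], m01S s (m01b6 0) = m01b6 i) ∨
    m01S 10 (m01S 6 (m01b6 0)) = m01b6 i := by decide +kernel

theorem m01_simpleL : IsSimpleModule RG ML := by
  have : Nontrivial ML := ⟨m01b6 0, (0 : V6), by decide⟩
  have key : ∀ (N : Submodule RG ML) (s : Fin 12) (x : ML), x ∈ N → (m01S s x : ML) ∈ N := by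
    intro N s x hx
    have := m01_mem N s hx
    rw [m01_L] at this
    exact this
  refine m01_simple_of (m01b6 0 : V6) ?_ ?_
  · intro N x hx hx0
    rcases m01_l1 x hx0 with h | ⟨s, -, h⟩
    · exact h ▸ hx
    · have := key N s.1 _ (key N s.2 x hx)
      rw [h] at this
      exact this
  · intro N hu y
    have hb : ∀ i, (m01b6 i : ML) ∈ N := by
      intro i
      rcases m01_l2 i with h | ⟨s, -, h⟩ | h
      · exact h ▸ hu
      · have := key N s _ hu
        rw [h] at this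
        exact this
      · have := key N 10 _ (key N 6 _ hu)
        rw [h] at this
        exact this
    rw [m01_span6 y]
    refine N.sum_mem fun i _ => ?_
    split_ifs
    · exact hb i
    · exact N.zero_mem

theorem bSIM : S_SIM := by
  intro a
  cases a
  · exact m01_simpleV
  · exact m01_simpleD
  · exact m01_simpleL

/-! ### homomorphisms -/

/-- base vector -/
def m01u : (a : Ty) → Md a
  | .v => (m01b4 0 : V4)
  | .d => (m01b4 0 : V4)
  | .l => (m01b6 0 : V6)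

/-- transvections fixing the base vector -/
def m01F : Ty → List (Fin 12)
  | .v => [0, 1, 2, 4, 5, 7, 8, 10, 11]
  | .d => [3, 4, 5, 6, 7, 8, 9, 10, 11]
  | .l => [0, 3, 1, 2, 4, 5, 8, 11]

/-- the action of the transvections, computable -/
def m01A (s : Fin 12) : (a : Ty) → Md a → Md a
  | .v => fun x => (m01T s *ᵥ x : Fin 4 → ZMod 2)
  | .d => fun x => ((m01T s)ᵀ *ᵥ x : Fin 4 → ZMod 2)
  | .l => fun x => (actL (m01T s) x : Fin 6 → ZMod 2)

theorem m01A_eq (s : Fin 12) (a : Ty) (x : Md a) : act (m01G s) x = m01A s a x := by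
  cases a
  · exact act_MV _ _
  · exact act_MD _ _
  · exact act_ML _ _

theorem m01_fixu : ∀ (a : Ty), ∀ s ∈ m01F a, m01A s a (m01u a) = m01u a := by
  intro a
  cases a <;> decide +kernel

theorem m01_fixV : ∀ (a : Ty) (y : V4), (∀ s ∈ m01F a, (m01T s *ᵥ y : Fin 4 → ZMod 2) = y) →
    y = 0 ∨ (a = .v ∧ y = m01b4 0) := by
  intro a
  cases a <;> decide +kernel

theorem m01_fixD : ∀ (a : Ty) (y : V4), (∀ s ∈ m01F a, ((m01T s)ᵀ *ᵥ y : Fin 4 → ZMod 2) = y) →
    y = 0 ∨ (a = .d ∧ y = m01b4 0) := by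
  intro a
  cases a <;> decide +kernel

theorem m01_fixL : ∀ (a : Ty) (y : V6), (∀ s ∈ m01F a, (actL (m01T s) y : Fin 6 → ZMod 2) = y) →
    y = 0 ∨ (a = .l ∧ y = m01b6 0) := by
  intro a
  cases a <;> decide +kernel

theorem m01_fix (a b : Ty) (y : Md b) (h : ∀ s ∈ m01F a, m01A s b y = y) :
    y = 0 ∨ ∃ e : a = b, y = e ▸ m01u a := by
  cases b
  · rcases m01_fixV a y h with h' | ⟨rfl, h'⟩
    · exact Or.inl h'
    · exact Or.inr ⟨rfl, h'⟩
  · rcases m01_fixD a y h with h' | ⟨rfl, h'⟩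
    · exact Or.inl h'
    · exact Or.inr ⟨rfl, h'⟩
  · rcases m01_fixL a y h with h' | ⟨rfl, h'⟩
    · exact Or.inl h'
    · exact Or.inr ⟨rfl, h'⟩

theorem m01u_ne (a : Ty) : m01u a ≠ 0 := by
  cases a <;> decide +kernel

theorem m01_zero {a b : Ty} (f : Md a →ₗ[RG] Md b) (h : f (m01u a) = 0) (x : Md a) : f x = 0 := by
  have := bSIM a
  rcases eq_bot_or_eq_top (LinearMap.ker f) with hk | hk
  · exfalso
    have hm : m01u a ∈ LinearMap.ker f := LinearMap.mem_ker.2 h
    rw [hk] at hm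
    exact m01u_ne a ((Submodule.mem_bot RG).1 hm)
  · have hm : x ∈ LinearMap.ker f := hk ▸ Submodule.mem_top
    exact LinearMap.mem_ker.1 hm

theorem bEND : S_END := by
  intro a b f
  have h : ∀ s ∈ m01F a, m01A s b (f (m01u a)) = f (m01u a) := by
    intro s hs
    rw [← m01A_eq, ← map_act, m01A_eq, m01_fixu a s hs]
  rcases m01_fix a b _ h with h | ⟨e, h⟩
  · exact Or.inl (m01_zero f h)
  · refine Or.inr ⟨e, fun x => ?_⟩
    subst e
    have := m01_zero (f - LinearMap.id) (by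
      rw [LinearMap.sub_apply, h]
      exact sub_self _) x
    rw [LinearMap.sub_apply] at this
    exact sub_eq_zero.1 this

/-! ### perfect pairings -/

theorem m01_pvv : ∀ x : V4, (∀ y : V4, wdg x y = 0) → x = 0 := by decide +kernel
theorem m01_pdd : ∀ x : V4, (∀ y : V4, wdgD x y = 0) → x = 0 := by decide +kernel
theorem m01_pvl1 : ∀ x : V4, (∀ l : V6, lv l x = 0) → x = 0 := by decide +kernel
theorem m01_pvl2 : ∀ l : V6, (∀ x : V4, lv l x = 0) → l = 0 := by decide +kernel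
theorem m01_pdl1 : ∀ x : V4, (∀ l : V6, ld l x = 0) → x = 0 := by decide +kernel
theorem m01_pdl2 : ∀ l : V6, (∀ x : V4, ld l x = 0) → l = 0 := by decide +kernel

theorem bPERF : S_PERF := by
  intro a b c m h
  cases h
  · refine ⟨m01_pvv, fun y h => m01_pvv y fun x => ?_⟩
    rw [wdg_comm]; exact h x
  · refine ⟨m01_pdd, fun y h => m01_pdd y fun x => ?_⟩
    rw [wdgD, wdg_comm]; exact h x
  · exact ⟨m01_pvl1, m01_pvl2⟩
  · exact ⟨m01_pvl2, m01_pvl1⟩
  · exact ⟨m01_pdl1, m01_pdl2⟩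
  · exact ⟨m01_pdl2, m01_pdl1⟩

/-! ### elements of order 15 -/

theorem m01_count (h : Gam) (ho : orderOf h = 5) (A : AddSubgroup V4)
    (hA : ∀ x ∈ A, h.1 *ᵥ x ∈ A) :
    Nat.card A ≡ Nat.card {x : A // h.1 *ᵥ (x : V4) = x} [MOD 5] := by
  classical
  set f : Function.End A := fun x => ⟨h.1 *ᵥ (x : V4), hA x x.2⟩ with hf
  have hpow : ∀ (n : ℕ) (x : A), (((f ^ n) x : A) : V4) = (h ^ n).1 *ᵥ (x : V4) := by
    intro n
    induction n with
    | zero =>
      intro x
      rw [pow_zero, pow_zero, Units.val_one, Matrix.one_mulVec]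
      rfl
    | succ n ih =>
      intro x
      rw [pow_succ', pow_succ', Units.val_mul, ← Matrix.mulVec_mulVec]
      show h.1 *ᵥ (((f ^ n) x : A) : V4) = _
      rw [ih]
  have h5 : f ^ 5 ^ 1 = 1 := by
    funext x
    apply Subtype.ext
    rw [hpow, pow_one, ← ho, pow_orderOf_eq_one, Units.val_one, Matrix.one_mulVec]
    rfl
  haveI : Fact (Nat.Prime 5) := ⟨by norm_num⟩
  have := Equiv.Perm.card_fixedPoints_modEq h5
  rw [Nat.card_eq_fintype_card, Nat.card_eq_fintype_card]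
  convert this using 1
  refine Fintype.card_congr (Equiv.subtypeEquivRight fun x => ?_)
  show h.1 *ᵥ (x : V4) = x ↔ f x = x
  constructor
  · intro hx
    exact Subtype.ext hx
  · intro hx
    exact congrArg Subtype.val hx

theorem m01_card (A : AddSubgroup V4) (h : Nat.card A ≡ 1 [MOD 5]) : A = ⊥ ∨ A = ⊤ := by
  have h1 : Nat.card A ∣ 16 := by
    have := A.card_addSubgroup_dvd_card
    have h2 : Nat.card V4 = 16 := by
      rw [Nat.card_eq_fintype_card]; decide +kernel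
    rwa [h2] at this
  have h3 : Nat.card A ≤ 16 := Nat.le_of_dvd (by norm_num) h1
  have h4 : Nat.card A = 1 ∨ Nat.card A = 16 := by
    generalize Nat.card A = n at *
    interval_cases n <;> simp_all [Nat.ModEq]
  rcases h4 with h4 | h4
  · exact Or.inl (AddSubgroup.card_eq_one.1 h4)
  · right
    apply AddSubgroup.eq_top_of_card_eq
    rw [h4, Nat.card_eq_fintype_card]
    decide +kernel

theorem m01_fix5 (h : Gam) (ho : orderOf h = 5) (x : V4) (hx : h.1 *ᵥ x = x) : x = 0 := by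
  set A : AddSubgroup V4 :=
    { carrier := {x | h.1 *ᵥ x = x}
      add_mem' := by
        intro a b ha hb
        show h.1 *ᵥ (a + b) = a + b
        rw [Matrix.mulVec_add, ha, hb]
      zero_mem' := Matrix.mulVec_zero _
      neg_mem' := by
        intro a ha
        show h.1 *ᵥ (-a) = -a
        rw [Matrix.mulVec_neg, ha] } with hA
  have h1 := m01_count h ho ⊤ (fun x _ => AddSubgroup.mem_top _)
  have h2 : Nat.card (⊤ : AddSubgroup V4) = 16 := by
    rw [AddSubgroup.card_top, Nat.card_eq_fintype_card]; decide +kernel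
  have h3 : Nat.card {x : (⊤ : AddSubgroup V4) // h.1 *ᵥ (x : V4) = x} = Nat.card A := by
    refine Nat.card_congr ⟨fun x => ⟨x.1.1, x.2⟩, fun x => ⟨⟨x.1, AddSubgroup.mem_top _⟩, x.2⟩,
      fun _ => rfl, fun _ => rfl⟩
  rw [h2, h3] at h1
  have h4 : Nat.card A ≡ 1 [MOD 5] := h1.symm.trans (by decide)
  rcases m01_card A h4 with h5 | h5
  · have : x ∈ A := hx
    rw [h5] at this
    exact AddSubgroup.mem_bot.1 this
  · exfalso
    have h6 : ∀ y : V4, h.1 *ᵥ y = y := by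
      intro y
      have : y ∈ A := h5 ▸ AddSubgroup.mem_top y
      exact this
    have h7 : h = 1 := by
      apply Units.ext
      apply Matrix.ext_of_mulVec_single
      intro i
      rw [h6, Units.val_one, Matrix.one_mulVec]
    rw [h7, orderOf_one] at ho
    exact absurd ho (by norm_num)

/-- the companion matrix of `1 + X + X² + X³ + X⁴` -/
def m01C : M4 := !![0, 0, 0, 1; 1, 0, 0, 1; 0, 1, 0, 1; 0, 0, 1, 1]

/-- the matrix with columns `q, C q, C² q, C³ q` -/
def m01Q (q : V4) : M4 := fun r c => ((m01C ^ (c : ℕ)) *ᵥ q) r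

theorem m01_Cb : ∀ i : Fin 4, (m01C ^ (i : ℕ)) *ᵥ m01b4 0 = m01b4 i := by decide +kernel

theorem m01_checkL : ∀ q : V4, (m01Q q) ^ 3 = 1 ∨ (m01Q q) ^ 5 = 1 ∨
    ∀ l : V6, actL (m01Q q) l = l → l = 0 := by decide +kernel

theorem m01_col (M : M4) (i : Fin 4) : M *ᵥ m01b4 i = fun r => M r i := by
  funext r
  simp [Matrix.mulVec, dotProduct, m01b4]

/-- an element of order 5 is conjugate to the companion matrix -/
theorem m01_conj (h : Gam) (ho : orderOf h = 5) : ∃ P : Gam, h.1 * P.1 = P.1 * m01C := by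
  set P : M4 := fun r c => ((h ^ (c : ℕ)).1 *ᵥ m01b4 0) r with hP
  have hPb : ∀ i : Fin 4, P *ᵥ m01b4 i = (h ^ (i : ℕ)).1 *ᵥ m01b4 0 := by
    intro i
    rw [m01_col]
  have hsum : (h ^ 4).1 *ᵥ m01b4 0 = (h ^ 0).1 *ᵥ m01b4 0 + (h ^ 1).1 *ᵥ m01b4 0 +
      (h ^ 2).1 *ᵥ m01b4 0 + (h ^ 3).1 *ᵥ m01b4 0 := by
    have h1 : (h ^ 0).1 *ᵥ m01b4 0 + (h ^ 1).1 *ᵥ m01b4 0 + (h ^ 2).1 *ᵥ m01b4 0 +
        (h ^ 3).1 *ᵥ m01b4 0 + (h ^ 4).1 *ᵥ m01b4 0 = 0 := by
      apply m01_fix5 h ho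
      have hs : ∀ n : ℕ, h.1 *ᵥ ((h ^ n).1 *ᵥ m01b4 0) = (h ^ (n + 1)).1 *ᵥ m01b4 0 := by
        intro n
        rw [pow_succ', Units.val_mul, ← Matrix.mulVec_mulVec]
      simp only [Matrix.mulVec_add, hs]
      have h5 : h ^ (4 + 1) = h ^ 0 := by
        rw [pow_zero, show 4 + 1 = orderOf h from ho.symm, pow_orderOf_eq_one]
      rw [h5]
      abel
    have h2 := congrArg (fun z => z + (h ^ 4).1 *ᵥ m01b4 0) h1
    simp only [zero_add] at h2
    rw [← h2, add_assoc]
    have h3 : (h ^ 4).1 *ᵥ m01b4 0 + (h ^ 4).1 *ᵥ m01b4 0 = 0 := by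
      funext i
      exact zadd _
    rw [h3, add_zero]
  have hcomm : h.1 * P = P * m01C := by
    apply Matrix.ext_of_mulVec_single
    intro i
    have hb : (Pi.single i 1 : V4) = m01b4 i := by
      funext j
      simp [m01b4, Pi.single_apply]
    rw [hb, ← Matrix.mulVec_mulVec, ← Matrix.mulVec_mulVec, hPb]
    have hs : h.1 *ᵥ ((h ^ (i : ℕ)).1 *ᵥ m01b4 0) = (h ^ ((i : ℕ) + 1)).1 *ᵥ m01b4 0 := by
      rw [pow_succ', Units.val_mul, ← Matrix.mulVec_mulVec]
    rw [hs]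
    have c0 : m01C *ᵥ m01b4 0 = m01b4 1 := by decide +kernel
    have c1 : m01C *ᵥ m01b4 1 = m01b4 2 := by decide +kernel
    have c2 : m01C *ᵥ m01b4 2 = m01b4 3 := by decide +kernel
    have c3 : m01C *ᵥ m01b4 3 = m01b4 0 + m01b4 1 + m01b4 2 + m01b4 3 := by decide +kernel
    fin_cases i
    · show (h ^ 1).1 *ᵥ m01b4 0 = P *ᵥ (m01C *ᵥ m01b4 0)
      rw [c0, hPb]; rfl
    · show (h ^ 2).1 *ᵥ m01b4 0 = P *ᵥ (m01C *ᵥ m01b4 1)
      rw [c1, hPb]; rfl
    · show (h ^ 3).1 *ᵥ m01b4 0 = P *ᵥ (m01C *ᵥ m01b4 2)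
      rw [c2, hPb]; rfl
    · show (h ^ 4).1 *ᵥ m01b4 0 = P *ᵥ (m01C *ᵥ m01b4 3)
      rw [c3, Matrix.mulVec_add, Matrix.mulVec_add, Matrix.mulVec_add, hPb, hPb, hPb, hPb, hsum]
      rfl
  -- surjectivity
  set A : AddSubgroup V4 := (Matrix.mulVecLin P).toAddMonoidHom.range with hA
  have hmem : ∀ x, x ∈ A ↔ ∃ y, P *ᵥ y = x := fun x => Iff.rfl
  have hstab : ∀ x ∈ A, h.1 *ᵥ x ∈ A := by
    intro x hx
    obtain ⟨y, rfl⟩ := (hmem x).1 hx
    refine (hmem _).2 ⟨m01C *ᵥ y, ?_⟩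
    rw [Matrix.mulVec_mulVec, Matrix.mulVec_mulVec, hcomm]
  have h1 := m01_count h ho A hstab
  have h2 : Nat.card {x : A // h.1 *ᵥ (x : V4) = x} = 1 := by
    rw [Nat.card_eq_one_iff_unique]
    refine ⟨⟨fun x y => ?_⟩, ⟨⟨0, Matrix.mulVec_zero _⟩⟩⟩
    apply Subtype.ext
    apply Subtype.ext
    rw [m01_fix5 h ho _ x.2, m01_fix5 h ho _ y.2]
  rw [h2] at h1
  have htop : A = ⊤ := by
    rcases m01_card A h1 with h3 | h3
    · exfalso
      have h4 : m01b4 0 ∈ A := (hmem _).2 ⟨m01b4 0, by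
        rw [hPb]
        show (h ^ 0).1 *ᵥ m01b4 0 = m01b4 0
        rw [pow_zero, Units.val_one, Matrix.one_mulVec]⟩
      rw [h3, AddSubgroup.mem_bot] at h4
      exact absurd h4 (by decide)
    · exact h3
  have hsurj : Function.Surjective (P *ᵥ ·) := by
    intro x
    have : x ∈ A := htop ▸ AddSubgroup.mem_top x
    exact (hmem x).1 this
  have hunit : IsUnit P := by
    rw [← Matrix.mulVec_surjective_iff_isUnit]
    exact hsurj
  obtain ⟨Pu, hPu⟩ := hunit
  exact ⟨Pu, by rw [hPu]; exact hcomm⟩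

theorem m01_commQ (M : M4) (h : M * m01C = m01C * M) : M = m01Q (M *ᵥ m01b4 0) := by
  have hp : ∀ n : ℕ, M * m01C ^ n = m01C ^ n * M := by
    intro n
    exact (Commute.pow_right (h : Commute M m01C) n)
  funext r c
  show M r c = ((m01C ^ (c : ℕ)) *ᵥ (M *ᵥ m01b4 0)) r
  rw [Matrix.mulVec_mulVec, ← hp, ← Matrix.mulVec_mulVec, m01_Cb, m01_col]

theorem m01_f15V (g : Gam) (ho : orderOf g = 15) (x : V4) (hx : g.1 *ᵥ x = x) : x = 0 := by
  have h5 : orderOf (g ^ 3) = 5 := by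
    rw [orderOf_pow, ho]
    rfl
  refine m01_fix5 (g ^ 3) h5 x ?_
  rw [pow_succ, pow_succ, pow_succ, pow_zero, one_mul, Units.val_mul, Units.val_mul,
    ← Matrix.mulVec_mulVec, ← Matrix.mulVec_mulVec, hx, hx, hx]

theorem m01_f15L (g : Gam) (ho : orderOf g = 15) (l : V6) (hl : actL g.1 l = l) : l = 0 := by
  have h5 : orderOf (g ^ 3) = 5 := by
    rw [orderOf_pow, ho]
    rfl
  obtain ⟨P, hP⟩ := m01_conj (g ^ 3) h5
  set g' : Gam := P⁻¹ * g * P with hg'
  have hcc : g'.1 * m01C = m01C * g'.1 := by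
    have e1 : m01C = (P⁻¹).1 * ((g ^ 3).1 * P.1) := by
      rw [hP, ← Matrix.mul_assoc, ← Units.val_mul, inv_mul_cancel, Units.val_one, Matrix.one_mul]
    have e2 : m01C = (P⁻¹ * g ^ 3 * P).1 := by
      rw [e1, Units.val_mul, Units.val_mul, Matrix.mul_assoc]
    rw [e2, ← Units.val_mul, ← Units.val_mul]
    refine congrArg Units.val ?_
    rw [hg']
    group
  have hQ := m01_commQ g'.1 hcc
  set q := g'.1 *ᵥ m01b4 0 with hq
  have hpow : ∀ n : ℕ, (m01Q q) ^ n = 1 → g ^ n = 1 := by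
    intro n hn
    rw [← hQ, ← Units.val_pow_eq_pow_val] at hn
    have h1 : g' ^ n = 1 := Units.ext hn
    have h2 : g = P * g' * P⁻¹ := by rw [hg']; group
    rw [h2, conj_pow, h1]
    group
  have hne : ∀ n : ℕ, 0 < n → n < 15 → g ^ n ≠ 1 := by
    intro n h0 h1 h2
    have := orderOf_dvd_of_pow_eq_one h2
    rw [ho] at this
    exact absurd (Nat.le_of_dvd h0 this) (by omega)
  rcases m01_checkL q with h | h | h
  · exact absurd (hpow 3 h) (hne 3 (by norm_num) (by norm_num))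
  · exact absurd (hpow 5 h) (hne 5 (by norm_num) (by norm_num))
  · have h1 : actL (m01Q q) (actL (P⁻¹).1 l) = actL (P⁻¹).1 l := by
      rw [← hQ, ← actL_mul]
      have e : g'.1 * (P⁻¹).1 = (P⁻¹).1 * g.1 := by
        rw [← Units.val_mul, ← Units.val_mul]
        refine congrArg Units.val ?_
        rw [hg']
        group
      rw [e, actL_mul, hl]
    have h2 := h _ h1
    have h3 : actL P.1 (actL (P⁻¹).1 l) = l := by
      rw [← actL_mul, ← Units.val_mul, mul_inv_cancel, Units.val_one, actL_one]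
    rw [h2] at h3
    rw [← h3, actL, toMat_zero, Matrix.mul_zero, Matrix.zero_mul]
    decide

theorem bF15 : S_F15 := by
  intro a g ho x hx
  cases a
  · rw [act_MV] at hx
    exact m01_f15V g ho x hx
  · rw [act_MD] at hx
    refine m01_f15V (sig g) ?_ x hx
    have hinj : Function.Injective sig := fun a b h => by
      rw [← sig_sig a, h, sig_sig]
    rw [orderOf_injective sig hinj, ho]
  · rw [act_ML] at hx
    exact m01_f15L g ho x hx

end Pool.Agent.A8
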